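import Pool.Agent.W475.BH.Stm
import Pool.Agent.W490.BH.Caf1
import Pool.Agent.W748.BH.CA3F

/-! Project BG, part BG-CAT, first half: circle averages over a box, with a frame error. -/

set_option autoImplicit false

namespace Pool.Agent.W403.BG

open Complex MeasureTheory Filter Topology
open Pool.Agent.W475.BH (nz Bx Vh S_CA1 S_CA3 S_CA4)
open Pool.Agent.W490.BH (VV VV_cont Vh_cont Bx_eq Bx_closed Bx_compact Bx_vol Bx_mono)
open scoped ENNReal

lemma hint {g : ℂ → ℝ} (hgm : Measurable g) (hgl : LocallyIntegrable g volume)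
    (a b c d : ℝ) {r : ℝ} (hr : 0 < r) :
    Integrable (fun q : ℂ × ℝ => g (circleMap q.1 r q.2))
      ((volume.restrict (Bx a b c d)).prod (volume.restrict (Set.Ioc 0 (2 * Real.pi)))) := by
  have hpi : 0 < 2 * Real.pi := by positivity
  have hfin : ∫⁻ w in Bx (a - r) (b + r) (c - r) (d + r), ‖g w‖ₑ < ⊤ :=
    (hgl.integrableOn_isCompact (Bx_compact _ _ _ _)).2
  have hGm : Measurable (fun q : ℂ × ℝ => g (circleMap q.1 r q.2)) := by
    refine hgm.comp ?_
    have : Continuous (fun q : ℂ × ℝ => circleMap q.1 r q.2) := by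
      unfold circleMap; fun_prop
    exact this.measurable
  have hsh : ∀ θ : ℝ, ∫⁻ w in Bx a b c d, ‖g (circleMap w r θ)‖ₑ ≤
      ∫⁻ w in Bx (a - r) (b + r) (c - r) (d + r), ‖g w‖ₑ := by
    intro θ
    have h1 := Pool.Agent.W748.BH.shift (fun w => ‖g w‖ₑ) (a := a) (b := b) (c := c) (d := d)
      (r := r) (v := circleMap 0 r θ) (by rw [norm_circleMap_zero, abs_of_pos hr])
    refine le_trans (le_of_eq ?_) h1
    refine lintegral_congr fun w => ?_
    simp [circleMap]
  have hdouble : ∫⁻ w in Bx a b c d, ∫⁻ θ in Set.Ioc 0 (2 * Real.pi), ‖g (circleMap w r θ)‖ₑ ≤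
      ENNReal.ofReal (2 * Real.pi) *
        ∫⁻ w in Bx (a - r) (b + r) (c - r) (d + r), ‖g w‖ₑ := by
    rw [lintegral_lintegral_swap hGm.enorm.aemeasurable]
    calc ∫⁻ θ in Set.Ioc 0 (2 * Real.pi), ∫⁻ w in Bx a b c d, ‖g (circleMap w r θ)‖ₑ
        ≤ ∫⁻ _ in Set.Ioc 0 (2 * Real.pi),
          ∫⁻ w in Bx (a - r) (b + r) (c - r) (d + r), ‖g w‖ₑ := lintegral_mono hsh
      _ = _ := by
          rw [setLIntegral_const, Real.volume_Ioc, sub_zero, mul_comm]
  refine ⟨hGm.aestronglyMeasurable, ?_⟩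
  show ∫⁻ q : ℂ × ℝ, ‖g (circleMap q.1 r q.2)‖ₑ ∂_ < ⊤
  rw [lintegral_prod _ hGm.enorm.aemeasurable]
  exact lt_of_le_of_lt hdouble (ENNReal.mul_lt_top ENNReal.ofReal_lt_top hfin)

lemma circleMap_eq (w : ℂ) (r θ : ℝ) : circleMap w r θ = w + circleMap 0 r θ := by
  simp [circleMap]

lemma fub {g : ℂ → ℝ} (hgm : Measurable g) (hgl : LocallyIntegrable g volume)
    (a b c d : ℝ) {r : ℝ} (hr : 0 < r) :
    IntegrableOn (fun w => Real.circleAverage g w r) (Bx a b c d) ∧
    IntegrableOn (fun θ => ∫ w in Bx a b c d, g (w + circleMap 0 r θ))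
      (Set.Ioc 0 (2 * Real.pi)) ∧
    ∫ w in Bx a b c d, Real.circleAverage g w r =
      (2 * Real.pi)⁻¹ * ∫ θ in Set.Ioc 0 (2 * Real.pi),
        ∫ w in Bx a b c d, g (w + circleMap 0 r θ) := by
  have hpi : 0 < 2 * Real.pi := by positivity
  have hi := hint hgm hgl a b c d hr
  have hca : ∀ w, Real.circleAverage g w r =
      (2 * Real.pi)⁻¹ * ∫ θ in Set.Ioc 0 (2 * Real.pi), g (circleMap w r θ) := by
    intro w
    rw [Real.circleAverage_def, intervalIntegral.integral_of_le hpi.le, smul_eq_mul]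
  refine ⟨?_, ?_, ?_⟩
  · have h1 := hi.integral_prod_left.const_mul (2 * Real.pi)⁻¹
    refine h1.congr (ae_of_all _ fun w => ?_)
    exact (hca w).symm
  · refine hi.integral_prod_right.congr (ae_of_all _ fun θ => ?_)
    refine integral_congr_ae (ae_of_all _ fun w => ?_)
    show g (circleMap w r θ) = g (w + circleMap 0 r θ)
    rw [circleMap_eq]
  · have e1 : ∫ w in Bx a b c d, Real.circleAverage g w r =
        ∫ w in Bx a b c d, (2 * Real.pi)⁻¹ *
          ∫ θ in Set.Ioc 0 (2 * Real.pi), g (circleMap w r θ) :=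
      integral_congr_ae (ae_of_all _ fun w => hca w)
    rw [e1, integral_const_mul]
    congr 1
    have e2 := integral_integral_swap (f := fun (w : ℂ) (θ : ℝ) => g (circleMap w r θ)) hi
    rw [e2]
    refine integral_congr_ae (ae_of_all _ fun θ => ?_)
    refine integral_congr_ae (ae_of_all _ fun w => ?_)
    show g (circleMap w r θ) = g (w + circleMap 0 r θ)
    rw [circleMap_eq]

/-- The frame of a box. -/
def Fr (a b c d r : ℝ) : Set ℂ :=
  Bx (a - r) (b + r) (c - r) (d + r) \ Bx (a + r) (b - r) (c + r) (d - r)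

lemma Fr_meas (a b c d r : ℝ) : MeasurableSet (Fr a b c d r) :=
  (Bx_closed _ _ _ _).measurableSet.diff (Bx_closed _ _ _ _).measurableSet

lemma Fr_int {g : ℂ → ℝ} (hgl : LocallyIntegrable g volume) (a b c d r : ℝ) :
    IntegrableOn g (Fr a b c d r) :=
  (hgl.integrableOn_isCompact (Bx_compact (a - r) (b + r) (c - r) (d + r))).mono_set
    Set.sdiff_subset

lemma diff {g : ℂ → ℝ} (hgl : LocallyIntegrable g volume) {a b c d r : ℝ}
    {v : ℂ} (hv : ‖v‖ ≤ r) :
    |(∫ w in Bx a b c d, g (w + v)) - ∫ w in Bx a b c d, g w| ≤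
      ∫ w in Fr a b c d r, |g w| := by
  have hre := abs_le.1 ((Complex.abs_re_le_norm v).trans hv)
  have him := abs_le.1 ((Complex.abs_im_le_norm v).trans hv)
  have hB : MeasurableSet (Bx a b c d) := (Bx_closed _ _ _ _).measurableSet
  have hB' : MeasurableSet (Bx (a + v.re) (b + v.re) (c + v.im) (d + v.im)) :=
    (Bx_closed _ _ _ _).measurableSet
  have e1 : ∫ w in Bx a b c d, g (w + v) =
      ∫ w in Bx (a + v.re) (b + v.re) (c + v.im) (d + v.im), g w := by
    rw [← integral_indicator hB, ← integral_indicator hB',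
      ← integral_add_right_eq_self
        ((Bx (a + v.re) (b + v.re) (c + v.im) (d + v.im)).indicator g) v]
    refine integral_congr_ae (ae_of_all _ fun w => ?_)
    show (Bx a b c d).indicator (fun w => g (w + v)) w =
      (Bx (a + v.re) (b + v.re) (c + v.im) (d + v.im)).indicator g (w + v)
    have hiff : w ∈ Bx a b c d ↔ w + v ∈ Bx (a + v.re) (b + v.re) (c + v.im) (d + v.im) := by
      simp only [Bx, Set.mem_ofPred_eq, Complex.add_re, Complex.add_im]
      constructor
      · rintro ⟨h1, h2, h3, h4⟩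
        exact ⟨by linarith, by linarith, by linarith, by linarith⟩
      · rintro ⟨h1, h2, h3, h4⟩
        exact ⟨by linarith, by linarith, by linarith, by linarith⟩
    by_cases hw : w ∈ Bx a b c d
    · rw [Set.indicator_of_mem hw, Set.indicator_of_mem (hiff.1 hw)]
    · rw [Set.indicator_of_notMem hw, Set.indicator_of_notMem (fun h => hw (hiff.2 h))]
  have i1 : Integrable ((Bx a b c d).indicator g) :=
    (hgl.integrableOn_isCompact (Bx_compact _ _ _ _)).integrable_indicator hB
  have i2 : Integrable ((Bx (a + v.re) (b + v.re) (c + v.im) (d + v.im)).indicator g) :=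
    (hgl.integrableOn_isCompact (Bx_compact _ _ _ _)).integrable_indicator hB'
  rw [e1, ← integral_indicator hB, ← integral_indicator hB', ← integral_sub i2 i1,
    ← integral_indicator (Fr_meas _ _ _ _ _)]
  refine (abs_integral_le_integral_abs).trans ?_
  refine integral_mono (i2.sub i1).abs
    ((integrable_indicator_iff (Fr_meas a b c d r)).2 (Fr_int hgl a b c d r).abs) fun w => ?_
  show |(Bx (a + v.re) (b + v.re) (c + v.im) (d + v.im)).indicator g w -
    (Bx a b c d).indicator g w| ≤ (Fr a b c d r).indicator (fun w => |g w|) w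
  by_cases hF : w ∈ Fr a b c d r
  · rw [Set.indicator_of_mem hF]
    by_cases h1 : w ∈ Bx (a + v.re) (b + v.re) (c + v.im) (d + v.im) <;>
      by_cases h2 : w ∈ Bx a b c d
    · rw [Set.indicator_of_mem h1, Set.indicator_of_mem h2, sub_self, abs_zero]
      exact abs_nonneg _
    · rw [Set.indicator_of_mem h1, Set.indicator_of_notMem h2, sub_zero]
    · rw [Set.indicator_of_notMem h1, Set.indicator_of_mem h2, zero_sub, abs_neg]
    · rw [Set.indicator_of_notMem h1, Set.indicator_of_notMem h2, sub_self, abs_zero]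
      exact abs_nonneg _
  · rw [Set.indicator_of_notMem hF]
    have hr : 0 ≤ r := (norm_nonneg v).trans hv
    by_cases hO : w ∈ Bx (a - r) (b + r) (c - r) (d + r)
    · have hI : w ∈ Bx (a + r) (b - r) (c + r) (d - r) := by
        by_contra hI
        exact hF ⟨hO, hI⟩
      obtain ⟨k1, k2, k3, k4⟩ := hI
      have h1 : w ∈ Bx (a + v.re) (b + v.re) (c + v.im) (d + v.im) :=
        ⟨by linarith [hre.2], by linarith [hre.1], by linarith [him.2], by linarith [him.1]⟩
      have h2 : w ∈ Bx a b c d := ⟨by linarith, by linarith, by linarith, by linarith⟩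
      rw [Set.indicator_of_mem h1, Set.indicator_of_mem h2, sub_self, abs_zero]
    · have h1 : w ∉ Bx (a + v.re) (b + v.re) (c + v.im) (d + v.im) := by
        rintro ⟨k1, k2, k3, k4⟩
        exact hO ⟨by linarith [hre.1], by linarith [hre.2], by linarith [him.1],
          by linarith [him.2]⟩
      have h2 : w ∉ Bx a b c d := by
        rintro ⟨k1, k2, k3, k4⟩
        exact hO ⟨by linarith, by linarith, by linarith, by linarith⟩
      rw [Set.indicator_of_notMem h1, Set.indicator_of_notMem h2, sub_self, abs_zero]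

lemma J_bound {g : ℂ → ℝ} (hgm : Measurable g) (hgl : LocallyIntegrable g volume)
    (a b c d : ℝ) {r : ℝ} (hr : 0 < r) :
    |∫ w in Bx a b c d, (Real.circleAverage g w r - g w)| ≤ ∫ w in Fr a b c d r, |g w| := by
  have hpi : 0 < 2 * Real.pi := by positivity
  obtain ⟨h1, h2, h3⟩ := fub hgm hgl a b c d hr
  have hgI : IntegrableOn g (Bx a b c d) := hgl.integrableOn_isCompact (Bx_compact _ _ _ _)
  have hvol : volume.real (Set.Ioc 0 (2 * Real.pi)) = 2 * Real.pi := by
    rw [measureReal_def, Real.volume_Ioc, sub_zero, ENNReal.toReal_ofReal hpi.le]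
  have hcI : IntegrableOn (fun _ : ℝ => ∫ w in Bx a b c d, g w) (Set.Ioc 0 (2 * Real.pi)) := by
    rw [integrableOn_const_iff]
    right
    exact measure_Ioc_lt_top
  have e1 : ∫ w in Bx a b c d, (Real.circleAverage g w r - g w) =
      (2 * Real.pi)⁻¹ * ∫ θ in Set.Ioc 0 (2 * Real.pi),
        ((∫ w in Bx a b c d, g (w + circleMap 0 r θ)) - ∫ w in Bx a b c d, g w) := by
    rw [integral_sub h1 hgI, h3, integral_sub h2 hcI, setIntegral_const, hvol, smul_eq_mul]
    field_simp
  rw [e1, abs_mul, abs_of_pos (inv_pos.2 hpi)]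
  have h4 : ‖∫ θ in Set.Ioc 0 (2 * Real.pi),
      ((∫ w in Bx a b c d, g (w + circleMap 0 r θ)) - ∫ w in Bx a b c d, g w)‖ ≤
      (∫ w in Fr a b c d r, |g w|) * volume.real (Set.Ioc 0 (2 * Real.pi)) := by
    apply norm_setIntegral_le_of_norm_le_const measure_Ioc_lt_top
    intro θ _
    rw [Real.norm_eq_abs]
    exact diff hgl (by rw [norm_circleMap_zero, abs_of_pos hr])
  rw [Real.norm_eq_abs, hvol] at h4
  calc (2 * Real.pi)⁻¹ * _ ≤ (2 * Real.pi)⁻¹ *
        ((∫ w in Fr a b c d r, |g w|) * (2 * Real.pi)) :=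
        mul_le_mul_of_nonneg_left h4 (inv_pos.2 hpi).le
    _ = _ := by field_simp

/-! ### The profile -/

lemma box_int (h : ℝ → ℝ) {a b c d : ℝ} (hab : a ≤ b) (hcd : c ≤ d) :
    ∫ w in Bx a b c d, h w.re = (d - c) * ∫ x in a..b, h x := by
  have h1 := Complex.volume_preserving_equiv_real_prod.setIntegral_preimage_emb
    Complex.measurableEquivRealProd.measurableEmbedding
    (fun p : ℝ × ℝ => h p.1 * (fun _ : ℝ => (1 : ℝ)) p.2) (Set.Icc a b ×ˢ Set.Icc c d)
  rw [Measure.volume_eq_prod,
    setIntegral_prod_mul h (fun _ : ℝ => (1 : ℝ)) (Set.Icc a b) (Set.Icc c d), ← Bx_eq, setIntegral_const,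
    integral_Icc_eq_integral_Ioc, ← intervalIntegral.integral_of_le hab, measureReal_def,
    Real.volume_Icc, ENNReal.toReal_ofReal (by linarith)] at h1
  simp only [Complex.measurableEquivRealProd_apply, mul_one, smul_eq_mul] at h1
  rw [h1, mul_comm]

lemma Vh_shift {κ β r s : ℝ} (hκ : 0 < κ) (hs : |s| ≤ r) (hβ : κ + r ≤ β) :
    (∫ x in (-β)..β, Vh κ (x + s)) - ∫ x in (-β)..β, Vh κ x = s ^ 2 / 2 := by
  have hc := Vh_cont hκ
  have hi : ∀ a b : ℝ, IntervalIntegrable (Vh κ) volume a b := fun a b => hc.intervalIntegrable a b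
  obtain ⟨s1, s2⟩ := abs_le.1 hs
  rw [intervalIntegral.integral_comp_add_right]
  have e1 : ∫ x in (-β + s)..(β + s), Vh κ x =
      (∫ x in (-β)..β, Vh κ x) + (∫ x in β..(β + s), Vh κ x) -
        ∫ x in (-β)..(-β + s), Vh κ x := by
    have k1 := intervalIntegral.integral_add_adjacent_intervals (hi (-β) (-β + s))
      (hi (-β + s) (β + s))
    have k2 := intervalIntegral.integral_add_adjacent_intervals (hi (-β) β) (hi β (β + s))
    linarith
  have hV1 : ∀ x : ℝ, κ ≤ x → Vh κ x = x / 2 - κ / 4 := by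
    intro x hx
    unfold Vh
    rw [abs_of_nonneg (by linarith)]
    split_ifs with h
    · have : x = κ := le_antisymm h hx
      rw [this]
      field_simp
      ring
    · rfl
  have hV2 : ∀ x : ℝ, x ≤ -κ → Vh κ x = -x / 2 - κ / 4 := by
    intro x hx
    unfold Vh
    rw [abs_of_nonpos (by linarith)]
    split_ifs with h
    · have : x = -κ := by linarith
      rw [this]
      field_simp
      ring
    · rfl
  have e2 : ∫ x in β..(β + s), Vh κ x = ∫ x in β..(β + s), (x / 2 - κ / 4) := by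
    apply intervalIntegral.integral_congr
    intro x hx
    rw [Set.mem_uIcc] at hx
    apply hV1
    rcases hx with h | h <;> linarith [h.1, h.2]
  have e3 : ∫ x in (-β)..(-β + s), Vh κ x = ∫ x in (-β)..(-β + s), (-x / 2 - κ / 4) := by
    apply intervalIntegral.integral_congr
    intro x hx
    rw [Set.mem_uIcc] at hx
    apply hV2
    rcases hx with h | h <;> linarith [h.1, h.2]
  have e4 : ∫ x in β..(β + s), (x / 2 - κ / 4) =
      ((β + s) ^ 2 - β ^ 2) / 4 - κ / 4 * s := by
    rw [intervalIntegral.integral_sub (by apply Continuous.intervalIntegrable; fun_prop)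
      (by apply Continuous.intervalIntegrable; fun_prop), intervalIntegral.integral_div,
      integral_id, intervalIntegral.integral_const, smul_eq_mul]
    ring
  have e5 : ∫ x in (-β)..(-β + s), (-x / 2 - κ / 4) =
      -((-β + s) ^ 2 - β ^ 2) / 4 - κ / 4 * s := by
    rw [intervalIntegral.integral_sub (by apply Continuous.intervalIntegrable; fun_prop)
      (by apply Continuous.intervalIntegrable; fun_prop), intervalIntegral.integral_div,
      intervalIntegral.integral_neg, integral_id, intervalIntegral.integral_const, smul_eq_mul]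
    ring
  rw [e1, e2, e3, e4, e5]
  ring

lemma J_V {κ β r c d : ℝ} (hκ : 0 < κ) (hr : 0 < r) (hβ : κ + r ≤ β) (hcd : c ≤ d) :
    ∫ w in Bx (-β) β c d, (Real.circleAverage (VV κ) w r - VV κ w) =
      (d - c) * (r ^ 2 / 4) := by
  have hpi : 0 < 2 * Real.pi := by positivity
  have hVm : Measurable (VV κ) := (VV_cont hκ).measurable
  have hVl : LocallyIntegrable (VV κ) volume := (VV_cont hκ).locallyIntegrable
  obtain ⟨h1, h2, h3⟩ := fub hVm hVl (-β) β c d hr
  have hgI : IntegrableOn (VV κ) (Bx (-β) β c d) :=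
    hVl.integrableOn_isCompact (Bx_compact _ _ _ _)
  have hvol : volume.real (Set.Ioc 0 (2 * Real.pi)) = 2 * Real.pi := by
    rw [measureReal_def, Real.volume_Ioc, sub_zero, ENNReal.toReal_ofReal hpi.le]
  have hcI : IntegrableOn (fun _ : ℝ => ∫ w in Bx (-β) β c d, VV κ w)
      (Set.Ioc 0 (2 * Real.pi)) := by
    rw [integrableOn_const_iff]
    right
    exact measure_Ioc_lt_top
  have e1 : ∫ w in Bx (-β) β c d, (Real.circleAverage (VV κ) w r - VV κ w) =
      (2 * Real.pi)⁻¹ * ∫ θ in Set.Ioc 0 (2 * Real.pi),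
        ((∫ w in Bx (-β) β c d, VV κ (w + circleMap 0 r θ)) - ∫ w in Bx (-β) β c d, VV κ w) := by
    rw [integral_sub h1 hgI, h3, integral_sub h2 hcI, setIntegral_const, hvol, smul_eq_mul]
    field_simp
  have e2 : ∀ θ : ℝ, (∫ w in Bx (-β) β c d, VV κ (w + circleMap 0 r θ)) -
      ∫ w in Bx (-β) β c d, VV κ w = (d - c) * (r ^ 2 / 2) * Real.cos θ ^ 2 := by
    intro θ
    have k1 : ∫ w in Bx (-β) β c d, VV κ (w + circleMap 0 r θ) =
        (d - c) * ∫ x in (-β)..β, Vh κ (x + r * Real.cos θ) := by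
      rw [← box_int (fun x => Vh κ (x + r * Real.cos θ)) (by linarith) hcd]
      refine integral_congr_ae (ae_of_all _ fun w => ?_)
      show Vh κ (w + circleMap 0 r θ).re = Vh κ (w.re + r * Real.cos θ)
      rw [Complex.add_re, Pool.Agent.W490.BH.re_circleMap]
      simp
    have k2 : ∫ w in Bx (-β) β c d, VV κ w = (d - c) * ∫ x in (-β)..β, Vh κ x :=
      box_int (Vh κ) (by linarith) hcd
    have hs : |r * Real.cos θ| ≤ r := by
      rw [abs_mul, abs_of_pos hr]
      have := Real.abs_cos_le_one θ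
      nlinarith
    have k3 := Vh_shift hκ hs hβ
    rw [k1, k2, ← mul_sub, k3]
    ring
  rw [e1, integral_congr_ae (ae_of_all _ fun θ => e2 θ), integral_const_mul,
    ← intervalIntegral.integral_of_le hpi.le, integral_cos_sq]
  simp
  field_simp
  ring

end Pool.Agent.W403.BG
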