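import Pool.Agent.W475.BG.Stm
import Pool.Agent.W403.BG.Cat1
import Pool.Agent.W18.BH.CA4
import Pool.Agent.W196.BH.CA2
import Pool.Agent.W412.BH.CA1
import Pool.Agent.W112.BH.CA3

/-! Project BG, part BG-CAT: counting all zeros of a tall box. -/

set_option autoImplicit false

namespace Pool.Agent.W403.BG

open Complex MeasureTheory Filter Topology
open Pool.Agent.W475.BH (nz Bx Vh S_CA1 S_CA3 S_CA4)
open Pool.Agent.W490.BH (VV VV_cont Vh_cont Bx_eq Bx_closed Bx_compact Bx_vol Bx_mono)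

lemma li_g (h1 : S_CA1) {f : ℂ → ℂ} (hf : Differentiable ℂ f) (h0 : ∃ z, f z ≠ 0)
    {κ : ℝ} (hκ : 0 < κ) (M : ℝ) :
    LocallyIntegrable (fun z => Real.log ‖f z‖ - M * VV κ z) volume :=
  (h1 f hf h0).sub ((continuous_const.mul (VV_cont hκ)).locallyIntegrable)

lemma meas_g {f : ℂ → ℂ} (hf : Differentiable ℂ f) {κ : ℝ} (hκ : 0 < κ) (M : ℝ) :
    Measurable (fun z => Real.log ‖f z‖ - M * VV κ z) := by
  apply Measurable.sub
  · exact (hf.continuous.norm.measurable).log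
  · exact (continuous_const.mul (VV_cont hκ)).measurable

lemma J_est (h1 : S_CA1) {κ : ℝ} (hκ : 0 < κ) (M : ℝ) {f : ℂ → ℂ}
    (hf : Differentiable ℂ f) (h0 : ∃ z, f z ≠ 0) {a b c d r : ℝ} (hr : 0 < r) :
    |(∫ w in Bx a b c d, (Real.circleAverage (fun z => Real.log ‖f z‖) w r - Real.log ‖f w‖)) -
      M * ∫ w in Bx a b c d, (Real.circleAverage (VV κ) w r - VV κ w)| ≤
      ∫ w in Fr a b c d r, |Real.log ‖f w‖ - M * VV κ w| := by
  set h : ℂ → ℝ := fun z => Real.log ‖f z‖ - M * VV κ z with hh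
  have hli : LocallyIntegrable h volume := li_g h1 hf h0 hκ M
  have hlog : ∀ w r, CircleIntegrable (fun z => Real.log ‖f z‖) w r := by
    intro w r
    apply MeromorphicOn.circleIntegrable_log_norm
    intro z _
    exact (hf.analyticAt z).meromorphicAt
  have hVci : ∀ w r, CircleIntegrable (fun z => M * VV κ z) w r := fun w r =>
    Pool.Agent.W490.BH.circleIntegrable_cont (continuous_const.mul (VV_cont hκ)) w r
  have hhci : ∀ w r, CircleIntegrable h w r := fun w r => (hlog w r).sub (hVci w r)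
  have hhm : Measurable h := meas_g hf hκ M
  obtain ⟨i1, -, -⟩ := fub hhm hli a b c d hr
  obtain ⟨j1, -, -⟩ := fub (VV_cont hκ).measurable (VV_cont hκ).locallyIntegrable a b c d hr
  have hcomp := Bx_compact a b c d
  have hV : IntegrableOn (VV κ) (Bx a b c d) :=
    (VV_cont hκ).locallyIntegrable.integrableOn_isCompact hcomp
  have hhI : IntegrableOn h (Bx a b c d) := hli.integrableOn_isCompact hcomp
  have k1 : IntegrableOn (fun w => Real.circleAverage (VV κ) w r - VV κ w) (Bx a b c d) :=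
    j1.sub hV
  have e1 : ∀ w, Real.circleAverage (fun z => Real.log ‖f z‖) w r - Real.log ‖f w‖ =
      (Real.circleAverage h w r - h w) + M * (Real.circleAverage (VV κ) w r - VV κ w) := by
    intro w
    have e2 : (fun z => Real.log ‖f z‖) = fun z => h z + M * VV κ z := by
      funext z
      simp only [hh]
      ring
    rw [e2, Real.circleAverage_fun_add (hhci w r) (hVci w r)]
    have e3 : Real.circleAverage (fun z => M * VV κ z) w r =
        M * Real.circleAverage (VV κ) w r := by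
      have := Real.circleAverage_fun_smul (a := M) (f := VV κ) (c := w) (R := r)
      simpa [smul_eq_mul] using this
    rw [e3]
    simp only [hh]
    ring
  have e4 : (∫ w in Bx a b c d, (Real.circleAverage (fun z => Real.log ‖f z‖) w r -
      Real.log ‖f w‖)) = (∫ w in Bx a b c d, (Real.circleAverage h w r - h w)) +
      M * ∫ w in Bx a b c d, (Real.circleAverage (VV κ) w r - VV κ w) := by
    have k0 : IntegrableOn (fun w => Real.circleAverage h w r - h w) (Bx a b c d) := i1.sub hhI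
    rw [← integral_const_mul, ← integral_add k0 (k1.const_mul M)]
    apply integral_congr_ae
    filter_upwards with w
    exact e1 w
  rw [e4, add_sub_cancel_right]
  exact J_bound hhm hli a b c d hr

/-! ### Covers -/

lemma cover_le {ι : Type*} (I : Finset ι) (S : ι → Set ℂ) (hS : ∀ i ∈ I, MeasurableSet (S i))
    {T : Set ℂ} (hT : MeasurableSet T) {h : ℂ → ℝ} (h0 : ∀ z, 0 ≤ h z)
    (hi : ∀ i ∈ I, IntegrableOn h (S i)) (hTi : IntegrableOn h T)
    (hcov : ∀ z ∈ T, ∃ i ∈ I, z ∈ S i) :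
    ∫ z in T, h z ≤ ∑ i ∈ I, ∫ z in S i, h z := by
  rw [← integral_indicator hT]
  have hint : ∀ i ∈ I, Integrable ((S i).indicator h) volume := fun i hI =>
    (integrable_indicator_iff (hS i hI)).2 (hi i hI)
  calc ∫ z, T.indicator h z ≤ ∫ z, ∑ i ∈ I, (S i).indicator h z := by
        apply integral_mono
        · exact (integrable_indicator_iff hT).2 hTi
        · exact integrable_finsetSum _ hint
        · intro z
          have hn : ∀ i ∈ I, 0 ≤ (S i).indicator h z :=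
            fun i _ => Set.indicator_nonneg (fun z _ => h0 z) z
          by_cases hz : z ∈ T
          · obtain ⟨i, hI, hzi⟩ := hcov z hz
            rw [Set.indicator_of_mem hz]
            have := Finset.single_le_sum hn hI
            rwa [Set.indicator_of_mem hzi] at this
          · rw [Set.indicator_of_notMem hz]
            exact Finset.sum_nonneg hn
    _ = ∑ i ∈ I, ∫ z in S i, h z := by
        rw [integral_finsetSum _ hint]
        refine Finset.sum_congr rfl fun i hI => ?_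
        rw [integral_indicator (hS i hI)]

/-! ### The chain -/

lemma step (h1 : S_CA1) (h4 : S_CA4) {κ M A : ℝ} (hκ : 0 < κ) (hM : 0 < M) (hA : 0 < A)
    {f : ℂ → ℂ} (hf : Differentiable ℂ f) {c p : ℂ}
    (hp : Metric.closedBall p (1 / 4) ⊆ Metric.closedBall c 1)
    (hup : ∀ z, ‖z - c‖ ≤ 1 → ‖f z‖ ≤ Real.exp (M * (Vh κ z.re + A)))
    (hc : Real.exp (M * (Vh κ c.re - A)) ≤ ‖f c‖) :
    ∃ c' : ℂ, ‖c' - p‖ ≤ 1 / 4 ∧
      Real.exp (M * (Vh κ c'.re - 32 * (3 * A + 1 / (16 * κ)))) ≤ ‖f c'‖ := by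
  have hpi := Real.pi_pos
  have h0 : ∃ z, f z ≠ 0 := by
    refine ⟨c, fun h => ?_⟩
    rw [h, norm_zero] at hc
    exact absurd hc (not_le.2 (Real.exp_pos _))
  by_contra hcon
  push Not at hcon
  have hb := h4 κ M A 1 f c hκ hM hA one_pos hf hup hc
  set h : ℂ → ℝ := fun z => |Real.log ‖f z‖ - M * Vh κ z.re| with hh
  have hli : LocallyIntegrable (fun z => Real.log ‖f z‖ - M * VV κ z) volume :=
    li_g h1 hf h0 hκ M
  have hhI : ∀ K : Set ℂ, IsCompact K → IntegrableOn h K := fun K hK =>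
    (hli.integrableOn_isCompact hK).abs
  set A' : ℝ := 3 * A + 1 / (16 * κ) with hA'
  have hA'0 : 0 < A' := by positivity
  have m1 : ∫ z in Metric.closedBall p (1 / 4), h z ≤ ∫ z in Metric.closedBall c 1, h z := by
    apply setIntegral_mono_set (hhI _ (isCompact_closedBall _ _))
    · filter_upwards with w
      exact abs_nonneg _
    · exact hp.eventuallyLE
  have m2 : ∫ _z in Metric.closedBall p (1 / 4), M * (32 * A') ≤
      ∫ z in Metric.closedBall p (1 / 4), h z := by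
    apply setIntegral_mono_ae_restrict
    · rw [integrableOn_const_iff]
      right
      exact (isCompact_closedBall _ _).measure_lt_top
    · exact hhI _ (isCompact_closedBall _ _)
    · rw [Filter.EventuallyLE, ae_restrict_iff' Metric.isClosed_closedBall.measurableSet]
      filter_upwards [Pool.Agent.W18.BH.CA4.zeros_null hf h0] with z hz hzb
      have h5 : ‖z - p‖ ≤ 1 / 4 := by
        rw [← dist_eq_norm]
        exact hzb
      have h6 := hcon z h5
      have h7 : Real.log ‖f z‖ ≤ M * (Vh κ z.re - 32 * A') := by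
        rw [← Real.log_exp (M * (Vh κ z.re - 32 * A'))]
        exact Real.log_le_log (norm_pos_iff.2 hz) h6.le
      show M * (32 * A') ≤ |Real.log ‖f z‖ - M * Vh κ z.re|
      rw [abs_sub_comm]
      refine le_trans ?_ (le_abs_self _)
      linarith
  rw [setIntegral_const, Pool.Agent.W18.BH.CA4.vol_ball p (by norm_num), smul_eq_mul] at m2
  have m3 : Real.pi * (1 / 4) ^ 2 * (M * (32 * A')) ≤ Real.pi * 1 ^ 2 * M * (3 * A + 1 ^ 2 / (16 * κ)) :=
    m2.trans (m1.trans hb)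
  have m4 : Real.pi * 1 ^ 2 * M * (3 * A + 1 ^ 2 / (16 * κ)) = Real.pi * M * A' := by
    rw [hA']; ring
  rw [m4] at m3
  have m5 : 0 < Real.pi * M * A' := by positivity
  nlinarith

/-- The constants of the chain. -/
noncomputable def Ak (κ : ℝ) : ℕ → ℝ
  | 0 => 1
  | (n + 1) => 32 * (3 * Ak κ n + 1 / (16 * κ))

lemma Ak_ge {κ : ℝ} (hκ : 0 < κ) : ∀ n, 1 ≤ Ak κ n
  | 0 => le_rfl
  | (n + 1) => by
    have h1 := Ak_ge hκ n
    have h2 : 0 ≤ 1 / (16 * κ) := by positivity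
    show 1 ≤ 32 * (3 * Ak κ n + 1 / (16 * κ))
    linarith

/-- The points of the chain. -/
noncomputable def pt (κ y : ℝ) (i : ℕ) : ℂ := ⟨-(κ + 2) + i / 2, y⟩

lemma chain (h1 : S_CA1) (h4 : S_CA4) {κ M H y : ℝ} (hκ : 0 < κ) (hM : 0 < M)
    (hy0 : 0 ≤ y) (hyH : y ≤ H) {f : ℂ → ℂ} (hf : Differentiable ℂ f)
    (H1 : ∀ z : ℂ, |z.re| ≤ κ + 4 → -4 ≤ z.im → z.im ≤ H + 4 →
      ‖f z‖ ≤ Real.exp (M * (Vh κ z.re + 1)))
    (H2 : ∀ z : ℂ, κ + 1 / 4 ≤ |z.re| → |z.re| ≤ κ + 4 → -4 ≤ z.im → z.im ≤ H + 4 →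
      Real.exp (M * (Vh κ z.re - 1)) ≤ ‖f z‖) :
    ∀ i : ℕ, (i : ℝ) ≤ 4 * κ + 8 → ∃ c : ℂ, ‖c - pt κ y i‖ ≤ 1 / 4 ∧
      Real.exp (M * (Vh κ c.re - Ak κ i)) ≤ ‖f c‖ := by
  intro i
  induction i with
  | zero =>
    intro _
    refine ⟨pt κ y 0, by simp, ?_⟩
    have e : |(pt κ y 0).re| = κ + 2 := by
      simp only [pt, Nat.cast_zero, zero_div, add_zero, abs_neg]
      exact abs_of_pos (by linarith)
    show Real.exp (M * (Vh κ (pt κ y 0).re - 1)) ≤ _
    refine H2 _ (by rw [e]; linarith) (by rw [e]; linarith) ?_ ?_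
    · show -4 ≤ y
      linarith
    · show y ≤ H + 4
      linarith
  | succ i ih =>
    intro hi
    push_cast at hi
    obtain ⟨c, hc1, hc2⟩ := ih (by linarith)
    have hAi := Ak_ge hκ i
    have hi0 : (0 : ℝ) ≤ i := Nat.cast_nonneg i
    have hcr := abs_le.1 ((Complex.abs_re_le_norm _).trans hc1)
    have hcim := abs_le.1 ((Complex.abs_im_le_norm _).trans hc1)
    rw [Complex.sub_re] at hcr
    rw [Complex.sub_im] at hcim
    have hpre : (pt κ y i).re = -(κ + 2) + i / 2 := rfl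
    have hpim : (pt κ y i).im = y := rfl
    rw [hpre] at hcr
    rw [hpim] at hcim
    have hstep : pt κ y (i + 1) - pt κ y i = (1 / 2 : ℝ) := by
      apply Complex.ext
      · simp only [pt, Complex.sub_re, Complex.ofReal_re]
        push_cast
        ring
      · simp only [pt, Complex.sub_im, Complex.ofReal_im]
        ring
    refine step h1 h4 hκ hM (by linarith) hf ?_ ?_ hc2
    · intro z hz
      rw [mem_closedBall_iff_norm] at hz ⊢
      calc ‖z - c‖ = ‖(z - pt κ y (i + 1)) + (pt κ y (i + 1) - pt κ y i) - (c - pt κ y i)‖ := by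
            congr 1
            ring
        _ ≤ ‖(z - pt κ y (i + 1)) + (pt κ y (i + 1) - pt κ y i)‖ + ‖c - pt κ y i‖ :=
            norm_sub_le _ _
        _ ≤ ‖z - pt κ y (i + 1)‖ + ‖pt κ y (i + 1) - pt κ y i‖ + ‖c - pt κ y i‖ := by
            gcongr
            exact norm_add_le _ _
        _ ≤ 1 / 4 + 1 / 2 + 1 / 4 := by
            rw [hstep, Complex.norm_real, Real.norm_eq_abs, abs_of_pos (by norm_num)]
            linarith
        _ = 1 := by norm_num
    · intro z hz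
      have hzr := abs_le.1 ((Complex.abs_re_le_norm _).trans hz)
      have hzim := abs_le.1 ((Complex.abs_im_le_norm _).trans hz)
      rw [Complex.sub_re] at hzr
      rw [Complex.sub_im] at hzim
      refine (H1 z ?_ ?_ ?_).trans ?_
      · rw [abs_le]
        constructor <;> linarith [hzr.1, hzr.2, hcr.1, hcr.2]
      · linarith [hzim.1, hcim.1]
      · linarith [hzim.2, hcim.2]
      · apply Real.exp_le_exp.2
        apply mul_le_mul_of_nonneg_left _ hM.le
        linarith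

/-- The constant of a horizontal strip. -/
noncomputable def C1 (κ : ℝ) : ℝ :=
  ∑ i ∈ Finset.range (⌊4 * κ + 8⌋₊ + 1), Real.pi * (3 * Ak κ i + 1 / (16 * κ))

lemma C1_nonneg {κ : ℝ} (hκ : 0 < κ) : 0 ≤ C1 κ := by
  unfold C1
  refine Finset.sum_nonneg fun i _ => ?_
  have h1 := Ak_ge hκ i
  have hpi := Real.pi_pos
  have h2 : 0 ≤ 3 * Ak κ i := by linarith
  positivity

lemma strip (h1 : S_CA1) (h4 : S_CA4) {κ M H y : ℝ} (hκ : 0 < κ) (hM : 0 < M)
    (hy0 : 0 ≤ y) (hyH : y ≤ H) {f : ℂ → ℂ} (hf : Differentiable ℂ f) (h0 : ∃ z, f z ≠ 0)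
    (H1 : ∀ z : ℂ, |z.re| ≤ κ + 4 → -4 ≤ z.im → z.im ≤ H + 4 →
      ‖f z‖ ≤ Real.exp (M * (Vh κ z.re + 1)))
    (H2 : ∀ z : ℂ, κ + 1 / 4 ≤ |z.re| → |z.re| ≤ κ + 4 → -4 ≤ z.im → z.im ≤ H + 4 →
      Real.exp (M * (Vh κ z.re - 1)) ≤ ‖f z‖) :
    ∫ z in Bx (-(κ + 2)) (κ + 2) (y - 1 / 2) (y + 1 / 2), |Real.log ‖f z‖ - M * VV κ z| ≤
      C1 κ * M := by
  have hpi := Real.pi_pos
  have hch := chain h1 h4 hκ hM hy0 hyH hf H1 H2
  choose! c hc1 hc2 using hch
  set I : Finset ℕ := Finset.range (⌊4 * κ + 8⌋₊ + 1) with hI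
  have hmem : ∀ i ∈ I, (i : ℝ) ≤ 4 * κ + 8 := by
    intro i hi
    rw [hI, Finset.mem_range] at hi
    have h5 : (i : ℝ) ≤ (⌊4 * κ + 8⌋₊ : ℝ) := by
      have : i ≤ ⌊4 * κ + 8⌋₊ := by omega
      exact_mod_cast this
    exact h5.trans (Nat.floor_le (by positivity))
  have hli : LocallyIntegrable (fun z => Real.log ‖f z‖ - M * VV κ z) volume :=
    li_g h1 hf h0 hκ M
  have hball : ∀ i ∈ I, ∫ z in Metric.closedBall (c i) 1, |Real.log ‖f z‖ - M * VV κ z| ≤
      Real.pi * (3 * Ak κ i + 1 / (16 * κ)) * M := by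
    intro i hi
    have hi' := hmem i hi
    have hi0 : (0 : ℝ) ≤ i := Nat.cast_nonneg i
    have hAi := Ak_ge hκ i
    have hci := hc1 i hi'
    have hcr := abs_le.1 ((Complex.abs_re_le_norm _).trans hci)
    have hcim := abs_le.1 ((Complex.abs_im_le_norm _).trans hci)
    rw [Complex.sub_re] at hcr
    rw [Complex.sub_im] at hcim
    have hpre : (pt κ y i).re = -(κ + 2) + i / 2 := rfl
    have hpim : (pt κ y i).im = y := rfl
    rw [hpre] at hcr
    rw [hpim] at hcim
    have hb := h4 κ M (Ak κ i) 1 f (c i) hκ hM (by linarith) one_pos hf ?_ (hc2 i hi')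
    · refine hb.trans (le_of_eq ?_)
      ring
    · intro z hz
      have hzr := abs_le.1 ((Complex.abs_re_le_norm _).trans hz)
      have hzim := abs_le.1 ((Complex.abs_im_le_norm _).trans hz)
      rw [Complex.sub_re] at hzr
      rw [Complex.sub_im] at hzim
      refine (H1 z ?_ ?_ ?_).trans ?_
      · rw [abs_le]
        constructor <;> linarith [hzr.1, hzr.2, hcr.1, hcr.2]
      · linarith [hzim.1, hcim.1]
      · linarith [hzim.2, hcim.2]
      · apply Real.exp_le_exp.2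
        apply mul_le_mul_of_nonneg_left _ hM.le
        linarith
  have hcov := cover_le I (fun i => Metric.closedBall (c i) 1)
    (fun i _ => Metric.isClosed_closedBall.measurableSet)
    (T := Bx (-(κ + 2)) (κ + 2) (y - 1 / 2) (y + 1 / 2)) (Bx_closed _ _ _ _).measurableSet
    (h := fun z => |Real.log ‖f z‖ - M * VV κ z|) (fun z => abs_nonneg _)
    (fun i _ => (hli.integrableOn_isCompact (isCompact_closedBall _ _)).abs)
    (hli.integrableOn_isCompact (Bx_compact _ _ _ _)).abs ?_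
  · refine hcov.trans ?_
    unfold C1
    rw [Finset.sum_mul]
    exact Finset.sum_le_sum hball
  · rintro z ⟨g1, g2, g3, g4⟩
    have e1 : 0 ≤ 2 * (z.re + κ + 2) := by linarith
    set i := ⌊2 * (z.re + κ + 2)⌋₊ with hi
    have i1 := Nat.floor_le e1
    have i2 := Nat.lt_floor_add_one (2 * (z.re + κ + 2))
    rw [← hi] at i1 i2
    have hiI : i ∈ I := by
      rw [hI, Finset.mem_range]
      have : i ≤ ⌊4 * κ + 8⌋₊ := by
        apply Nat.floor_mono
        linarith
      omega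
    refine ⟨i, hiI, ?_⟩
    rw [mem_closedBall_iff_norm]
    have hci := hc1 i (hmem i hiI)
    have k1 : |(z - pt κ y i).re| ≤ 1 / 2 := by
      rw [Complex.sub_re]
      show |z.re - (-(κ + 2) + i / 2)| ≤ 1 / 2
      rw [abs_le]
      constructor <;> linarith
    have k2 : |(z - pt κ y i).im| ≤ 1 / 2 := by
      rw [Complex.sub_im]
      show |z.im - y| ≤ 1 / 2
      rw [abs_le]
      constructor <;> linarith
    have k3 : ‖z - pt κ y i‖ ≤ 3 / 4 := by
      have h5 : ‖z - pt κ y i‖ ^ 2 ≤ (3 / 4) ^ 2 := by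
        rw [Complex.sq_norm, Complex.normSq_apply]
        have s1 : (z - pt κ y i).re * (z - pt κ y i).re ≤ (1 / 2) * (1 / 2) := by
          rw [← abs_mul_abs_self]
          exact mul_self_le_mul_self (abs_nonneg _) k1
        have s2 : (z - pt κ y i).im * (z - pt κ y i).im ≤ (1 / 2) * (1 / 2) := by
          rw [← abs_mul_abs_self]
          exact mul_self_le_mul_self (abs_nonneg _) k2
        nlinarith
      exact le_of_sq_le_sq h5 (by norm_num)
    calc ‖z - c i‖ = ‖(z - pt κ y i) - (c i - pt κ y i)‖ := by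
          congr 1
          ring
      _ ≤ ‖z - pt κ y i‖ + ‖c i - pt κ y i‖ := norm_sub_le _ _
      _ ≤ 1 := by linarith

lemma vert (h1 : S_CA1) {κ M δ a b c d : ℝ} (hκ : 0 < κ)
    {f : ℂ → ℂ} (hf : Differentiable ℂ f) (h0 : ∃ z, f z ≠ 0) (hab : a ≤ b) (hcd : c ≤ d)
    (H1 : ∀ z ∈ Bx a b c d, ‖f z‖ ≤ Real.exp (M * (Vh κ z.re + δ)))
    (H2 : ∀ z ∈ Bx a b c d, Real.exp (M * (Vh κ z.re - δ)) ≤ ‖f z‖) :
    ∫ z in Bx a b c d, |Real.log ‖f z‖ - M * VV κ z| ≤ (b - a) * (d - c) * (M * δ) := by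
  have hli : LocallyIntegrable (fun z => Real.log ‖f z‖ - M * VV κ z) volume :=
    li_g h1 hf h0 hκ M
  have hm : ∫ z in Bx a b c d, |Real.log ‖f z‖ - M * VV κ z| ≤
      ∫ _z in Bx a b c d, M * δ := by
    apply setIntegral_mono_on
    · exact (hli.integrableOn_isCompact (Bx_compact _ _ _ _)).abs
    · rw [integrableOn_const_iff]
      right
      exact (Bx_compact _ _ _ _).measure_lt_top
    · exact (Bx_closed _ _ _ _).measurableSet
    · intro z hz
      have k1 := H1 z hz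
      have k2 := H2 z hz
      have hp : 0 < ‖f z‖ := lt_of_lt_of_le (Real.exp_pos _) k2
      have k3 : Real.log ‖f z‖ ≤ M * (Vh κ z.re + δ) := by
        rw [← Real.log_exp (M * (Vh κ z.re + δ))]
        exact Real.log_le_log hp k1
      have k4 : M * (Vh κ z.re - δ) ≤ Real.log ‖f z‖ := by
        rw [← Real.log_exp (M * (Vh κ z.re - δ))]
        exact Real.log_le_log (Real.exp_pos _) k2
      show |Real.log ‖f z‖ - M * Vh κ z.re| ≤ M * δ
      rw [abs_le]
      constructor <;> nlinarith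
  refine hm.trans (le_of_eq ?_)
  rw [setIntegral_const, Bx_vol, max_eq_left (by linarith), max_eq_left (by linarith), smul_eq_mul]

/-- A frame that contains the two frames used below. -/
def NN (κ H : ℝ) : Set ℂ :=
  Bx (-(κ + 5 / 4)) (κ + 5 / 4) (-(1 / 4)) (H + 1 / 4) \
    Bx (-(κ + 3 / 4)) (κ + 3 / 4) (3 / 8) (H - 1 / 4)

lemma frame (h1 : S_CA1) (h4 : S_CA4) {κ M H δ : ℝ} (hκ : 0 < κ) (hM : 0 < M) (hH : 1 ≤ H)
    (hδ : 0 < δ) (hδ1 : δ ≤ 1 / (H + 1)) {f : ℂ → ℂ} (hf : Differentiable ℂ f)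
    (h0 : ∃ z, f z ≠ 0)
    (H1 : ∀ z : ℂ, |z.re| ≤ κ + 4 → -4 ≤ z.im → z.im ≤ H + 4 →
      ‖f z‖ ≤ Real.exp (M * (Vh κ z.re + δ)))
    (H2 : ∀ z : ℂ, κ + 1 / 4 ≤ |z.re| → |z.re| ≤ κ + 4 → -4 ≤ z.im → z.im ≤ H + 4 →
      Real.exp (M * (Vh κ z.re - δ)) ≤ ‖f z‖) :
    ∫ z in NN κ H, |Real.log ‖f z‖ - M * VV κ z| ≤ (1 + 2 * C1 κ) * M := by
  have hli : LocallyIntegrable (fun z => Real.log ‖f z‖ - M * VV κ z) volume :=
    li_g h1 hf h0 hκ M
  have hδ' : δ ≤ 1 := by
    refine hδ1.trans ?_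
    rw [div_le_one (by linarith)]
    linarith
  have H1' : ∀ z : ℂ, |z.re| ≤ κ + 4 → -4 ≤ z.im → z.im ≤ H + 4 →
      ‖f z‖ ≤ Real.exp (M * (Vh κ z.re + 1)) := by
    intro z k1 k2 k3
    refine (H1 z k1 k2 k3).trans (Real.exp_le_exp.2 ?_)
    apply mul_le_mul_of_nonneg_left _ hM.le
    linarith
  have H2' : ∀ z : ℂ, κ + 1 / 4 ≤ |z.re| → |z.re| ≤ κ + 4 → -4 ≤ z.im → z.im ≤ H + 4 →
      Real.exp (M * (Vh κ z.re - 1)) ≤ ‖f z‖ := by
    intro z k0 k1 k2 k3
    refine le_trans (Real.exp_le_exp.2 ?_) (H2 z k0 k1 k2 k3)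
    apply mul_le_mul_of_nonneg_left _ hM.le
    linarith
  have s1 := strip h1 h4 hκ hM le_rfl (by linarith : (0 : ℝ) ≤ H) hf h0 H1' H2'
  have s2 := strip h1 h4 hκ hM (by linarith : (0 : ℝ) ≤ H) le_rfl hf h0 H1' H2'
  have vb : (H + 1 / 2) * δ ≤ 1 := by
    have k1 : (H + 1) * δ ≤ 1 := by
      rw [le_div_iff₀ (by linarith)] at hδ1
      linarith
    nlinarith
  have v1 : ∫ z in Bx (-(κ + 5 / 4)) (-(κ + 3 / 4)) (-(1 / 4)) (H + 1 / 4),
      |Real.log ‖f z‖ - M * VV κ z| ≤ M / 2 := by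
    refine (vert (δ := δ) h1 hκ hf h0 (by linarith) (by linarith) ?_ ?_).trans ?_
    · rintro z ⟨g1, g2, g3, g4⟩
      apply H1 z _ (by linarith) (by linarith)
      rw [abs_le]
      constructor <;> linarith
    · rintro z ⟨g1, g2, g3, g4⟩
      have ha : |z.re| = -z.re := abs_of_nonpos (by linarith)
      apply H2 z _ _ (by linarith) (by linarith)
      · rw [ha]; linarith
      · rw [ha]; linarith
    · have e : (-(κ + 3 / 4) - -(κ + 5 / 4)) * (H + 1 / 4 - -(1 / 4)) * (M * δ) =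
          M * ((H + 1 / 2) * δ) / 2 := by ring
      rw [e]
      have := mul_le_mul_of_nonneg_left vb hM.le
      linarith
  have v2 : ∫ z in Bx (κ + 3 / 4) (κ + 5 / 4) (-(1 / 4)) (H + 1 / 4),
      |Real.log ‖f z‖ - M * VV κ z| ≤ M / 2 := by
    refine (vert (δ := δ) h1 hκ hf h0 (by linarith) (by linarith) ?_ ?_).trans ?_
    · rintro z ⟨g1, g2, g3, g4⟩
      apply H1 z _ (by linarith) (by linarith)
      rw [abs_le]
      constructor <;> linarith
    · rintro z ⟨g1, g2, g3, g4⟩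
      have ha : |z.re| = z.re := abs_of_nonneg (by linarith)
      apply H2 z _ _ (by linarith) (by linarith)
      · rw [ha]; linarith
      · rw [ha]; linarith
    · have e : (κ + 5 / 4 - (κ + 3 / 4)) * (H + 1 / 4 - -(1 / 4)) * (M * δ) =
          M * ((H + 1 / 2) * δ) / 2 := by ring
      rw [e]
      have := mul_le_mul_of_nonneg_left vb hM.le
      linarith
  have hNm : MeasurableSet (NN κ H) :=
    (Bx_closed _ _ _ _).measurableSet.diff (Bx_closed _ _ _ _).measurableSet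
  have hNi : IntegrableOn (fun z => |Real.log ‖f z‖ - M * VV κ z|) (NN κ H) :=
    IntegrableOn.mono_set (hli.integrableOn_isCompact (Bx_compact (-(κ + 5 / 4)) (κ + 5 / 4)
      (-(1 / 4)) (H + 1 / 4))).abs Set.sdiff_subset
  have hcov := cover_le (Finset.univ : Finset (Fin 4))
    ![Bx (-(κ + 2)) (κ + 2) (0 - 1 / 2) (0 + 1 / 2), Bx (-(κ + 2)) (κ + 2) (H - 1 / 2) (H + 1 / 2),
      Bx (-(κ + 5 / 4)) (-(κ + 3 / 4)) (-(1 / 4)) (H + 1 / 4),
      Bx (κ + 3 / 4) (κ + 5 / 4) (-(1 / 4)) (H + 1 / 4)]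
    (by
      intro i _
      fin_cases i <;> exact (Bx_closed _ _ _ _).measurableSet)
    (T := NN κ H) hNm
    (h := fun z => |Real.log ‖f z‖ - M * VV κ z|) (fun z => abs_nonneg _)
    (by
      intro i _
      fin_cases i <;> exact (hli.integrableOn_isCompact (Bx_compact _ _ _ _)).abs)
    hNi ?_
  · rw [Fin.sum_univ_four] at hcov
    simp only [Matrix.cons_val_zero, Matrix.cons_val_one, Matrix.cons_val] at hcov
    refine hcov.trans ?_
    linarith
  · rintro z ⟨⟨g1, g2, g3, g4⟩, hz⟩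
    by_cases q1 : z.im < 3 / 8
    · exact ⟨0, Finset.mem_univ _, ⟨by linarith, by linarith, by linarith, by linarith⟩⟩
    by_cases q2 : H - 1 / 4 < z.im
    · exact ⟨1, Finset.mem_univ _, ⟨by linarith, by linarith, by linarith, by linarith⟩⟩
    by_cases q3 : z.re < -(κ + 3 / 4)
    · exact ⟨2, Finset.mem_univ _, ⟨by linarith, by linarith, by linarith, by linarith⟩⟩
    by_cases q4 : κ + 3 / 4 < z.re
    · exact ⟨3, Finset.mem_univ _, ⟨by linarith, by linarith, by linarith, by linarith⟩⟩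
    exfalso
    push Not at q1 q2 q3 q4
    exact hz ⟨q3, q4, q1, q2⟩

lemma cat_core (h1 : S_CA1) (h3 : S_CA3) (h4 : S_CA4) : Pool.Agent.W475.BG.S_CAT := by
  intro κ hκ
  have hpi := Real.pi_pos
  have hC1 := C1_nonneg hκ
  refine ⟨(1 + 128 * (1 + 2 * C1 κ)) / Real.pi, by positivity, ?_⟩
  intro H hH
  have hH1 : 0 < H + 1 := by linarith
  refine ⟨1 / (H + 1), by positivity, ?_⟩
  intro M f hM hf H1 H2
  have h0 : ∃ z, f z ≠ 0 := by
    have ha : |(((κ + 1 : ℝ) : ℂ)).re| = κ + 1 := by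
      rw [Complex.ofReal_re]
      exact abs_of_pos (by linarith)
    have him : (((κ + 1 : ℝ) : ℂ)).im = 0 := Complex.ofReal_im _
    have := H2 ((κ + 1 : ℝ) : ℂ) (by rw [ha]; linarith) (by rw [ha]; linarith)
      (by rw [him]; linarith) (by rw [him]; linarith)
    refine ⟨((κ + 1 : ℝ) : ℂ), fun h => ?_⟩
    rw [h, norm_zero] at this
    exact absurd this (not_le.2 (Real.exp_pos _))
  have hE := frame h1 h4 hκ hM hH (by positivity) le_rfl hf h0 H1 H2
  have hli : LocallyIntegrable (fun z => Real.log ‖f z‖ - M * VV κ z) volume :=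
    li_g h1 hf h0 hκ M
  have hNi : IntegrableOn (fun z => |Real.log ‖f z‖ - M * VV κ z|) (NN κ H) :=
    IntegrableOn.mono_set (hli.integrableOn_isCompact (Bx_compact (-(κ + 5 / 4)) (κ + 5 / 4)
      (-(1 / 4)) (H + 1 / 4))).abs Set.sdiff_subset
  have hsub : ∀ S : Set ℂ, S ⊆ NN κ H →
      ∫ z in S, |Real.log ‖f z‖ - M * VV κ z| ≤ (1 + 2 * C1 κ) * M := by
    intro S hS
    refine le_trans (setIntegral_mono_set hNi ?_ hS.eventuallyLE) hE
    filter_upwards with w
    exact abs_nonneg _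
  set A : Set ℂ := {z | |z.re| ≤ κ + 1 ∧ 0 < z.im ∧ z.im ≤ H} with hA
  set n : ℝ := (nz f A : ℝ) with hn
  obtain ⟨r, hr⟩ : ∃ r : ℝ, r = 1 / 8 := ⟨_, rfl⟩
  have hr0 : 0 < r := by rw [hr]; norm_num
  have hE0 : 0 ≤ (1 + 2 * C1 κ) * M := by positivity
  -- upper bound
  have hup : Real.pi * r ^ 2 / 2 * n ≤ M * ((H + 1 / 4) * (r ^ 2 / 4)) + (1 + 2 * C1 κ) * M := by
    have g1 := (h3 f hf h0 (-(κ + 1 + r)) (κ + 1 + r) (-r) (H + r) r hr0 (by linarith)
      (by linarith)).1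
    have g2 : n ≤ nz f (Bx (-(κ + 1 + r) + r) (κ + 1 + r - r) (-r + r) (H + r - r)) := by
      rw [hn]
      have : nz f A ≤ nz f (Bx (-(κ + 1 + r) + r) (κ + 1 + r - r) (-r + r) (H + r - r)) := by
        apply Pool.Agent.W490.BH.nz_mono hf h0 (Bx_compact _ _ _ _)
        rintro z ⟨z1, z2, z3⟩
        obtain ⟨z4, z5⟩ := abs_le.1 z1
        exact ⟨by linarith, by linarith, by linarith, by linarith⟩
      exact_mod_cast this
    have k2 := J_est h1 hκ M hf h0 (a := -(κ + 1 + r)) (b := κ + 1 + r) (c := -r) (d := H + r) hr0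
    have k3 := J_V hκ hr0 (β := κ + 1 + r) (c := -r) (d := H + r) (by linarith) (by linarith)
    have k4 := hsub (Fr (-(κ + 1 + r)) (κ + 1 + r) (-r) (H + r) r) (by
      rintro z ⟨⟨g1, g2, g3, g4⟩, hz⟩
      refine ⟨⟨by linarith, by linarith, by linarith, by linarith⟩, fun hz' => hz ?_⟩
      obtain ⟨g5, g6, g7, g8⟩ := hz'
      exact ⟨by linarith, by linarith, by linarith, by linarith⟩)
    rw [k3] at k2
    have k5 := (abs_le.1 (k2.trans k4)).2
    have m1 := mul_le_mul_of_nonneg_left g2 (by positivity : 0 ≤ Real.pi * r ^ 2 / 2)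
    have e : M * ((H + 1 / 4) * (r ^ 2 / 4)) = M * ((H + r - -r) * (r ^ 2 / 4)) := by
      rw [hr]; ring
    rw [e]
    linarith
  -- lower bound
  have hlow : M * ((H - 3 / 8) * (r ^ 2 / 4)) - (1 + 2 * C1 κ) * M ≤ Real.pi * r ^ 2 / 2 * n := by
    have g1 := (h3 f hf h0 (-(κ + 1 - r)) (κ + 1 - r) (2 * r) (H - r) r hr0 (by linarith)
      (by linarith)).2
    have g2 : (nz f (Bx (-(κ + 1 - r) - r) (κ + 1 - r + r) (2 * r - r) (H - r + r)) : ℝ) ≤ n := by
      rw [hn]
      have : nz f (Bx (-(κ + 1 - r) - r) (κ + 1 - r + r) (2 * r - r) (H - r + r)) ≤ nz f A := by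
        apply Pool.Agent.W490.BH.nz_mono' hf h0 (Bx_compact (-(κ + 1)) (κ + 1) 0 H)
        · rintro z ⟨z1, z2, z3, z4⟩
          exact ⟨abs_le.2 ⟨by linarith, by linarith⟩, by linarith, by linarith⟩
        · rintro z ⟨z1, z2, z3⟩
          obtain ⟨z4, z5⟩ := abs_le.1 z1
          exact ⟨by linarith, by linarith, by linarith, by linarith⟩
      exact_mod_cast this
    have k2 := J_est h1 hκ M hf h0 (a := -(κ + 1 - r)) (b := κ + 1 - r) (c := 2 * r)
      (d := H - r) hr0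
    have k3 := J_V hκ hr0 (β := κ + 1 - r) (c := 2 * r) (d := H - r) (by linarith) (by linarith)
    have k4 := hsub (Fr (-(κ + 1 - r)) (κ + 1 - r) (2 * r) (H - r) r) (by
      rintro z ⟨⟨g1, g2, g3, g4⟩, hz⟩
      refine ⟨⟨by linarith, by linarith, by linarith, by linarith⟩, fun hz' => hz ?_⟩
      obtain ⟨g5, g6, g7, g8⟩ := hz'
      exact ⟨by linarith, by linarith, by linarith, by linarith⟩)
    rw [k3] at k2
    have k5 := (abs_le.1 (k2.trans k4)).1
    have m1 := mul_le_mul_of_nonneg_left g2 (by positivity : 0 ≤ Real.pi * r ^ 2 / 2)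
    have e : M * ((H - 3 / 8) * (r ^ 2 / 4)) = M * ((H - r - 2 * r) * (r ^ 2 / 4)) := by
      rw [hr]; ring
    rw [e]
    linarith
  rw [hr] at hup hlow
  have hX : Real.pi * ((1 + 128 * (1 + 2 * C1 κ)) / Real.pi * M) =
      (1 + 128 * (1 + 2 * C1 κ)) * M := by
    field_simp
  have hY : Real.pi * (M * H / (2 * Real.pi)) = M * H / 2 := by
    field_simp
  rw [abs_le]
  constructor
  · apply le_of_mul_le_mul_left _ hpi
    have e1 : Real.pi * -((1 + 128 * (1 + 2 * C1 κ)) / Real.pi * M) =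
        -((1 + 128 * (1 + 2 * C1 κ)) * M) := by
      rw [mul_neg, hX]
    rw [e1, mul_sub, hY]
    nlinarith
  · apply le_of_mul_le_mul_left _ hpi
    rw [hX, mul_sub, hY]
    nlinarith

theorem cat : Pool.Agent.W475.BG.S_CAT :=
  cat_core Pool.Agent.W412.BH.ca1 Pool.Agent.W112.BH.ca3'
    (Pool.Agent.W18.BH.CA4.main Pool.Agent.W412.BH.ca1
      (Pool.Agent.W196.BH.t_CA2 Pool.Agent.W412.BH.ca1))

end Pool.Agent.W403.BG
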